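import Pool.Agent.Q117.EK.Family

/-!
The entropy function of the words `01`, `10`, `011` is not differentiable at some interior point of
the feasibility set.
-/

namespace Pool.Agent.Results.MP_8f0a23_co.EntropyKink

open MeasureTheory Set Real Q117.EK

/-- the feasibility set `E_W` -/
def Feas {k : ℕ} (W : Fin k → List Bool) : Set (Fin k → ℝ) :=
  {δ | ∃ f ∈ Dens, ∀ i, rho f (W i) = δ i}

/-- the entropy function `s_W` -/
noncomputable def entFun {k : ℕ} (W : Fin k → List Bool) (δ : Fin k → ℝ) : ℝ :=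
  sSup {e | ∃ f ∈ Dens, (∀ i, rho f (W i) = δ i) ∧ Ent f = e}

/-- the words `01`, `10`, `011` -/
def W0 : Fin 3 → List Bool := ![[false, true], [true, false], [false, true, true]]

theorem feas_iff {f : ℝ → ℝ} {δ : Fin 3 → ℝ} : (∀ i, rho f (W0 i) = δ i) ↔
    rho f [false, true] = δ 0 ∧ rho f [true, false] = δ 1 ∧
      rho f [false, true, true] = δ 2 := by
  constructor
  · intro h
    exact ⟨h 0, h 1, h 2⟩
  · rintro ⟨h0, h1, h2⟩ i
    fin_cases i
    · exact h0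
    · exact h1
    · exact h2

theorem bdd (δ : Fin 3 → ℝ) :
    BddAbove {e | ∃ f ∈ Dens, (∀ i, rho f (W0 i) = δ i) ∧ Ent f = e} := by
  refine ⟨Real.log 2, ?_⟩
  rintro e ⟨f, hf, -, rfl⟩
  exact Ent_le hf

theorem le_entFun {f : ℝ → ℝ} (hf : f ∈ Dens) {δ : Fin 3 → ℝ} (h : ∀ i, rho f (W0 i) = δ i) :
    Ent f ≤ entFun W0 δ := le_csSup (bdd δ) ⟨f, hf, h, rfl⟩

/-- the larger root of `A - A^2 = (δ 0 + δ 1) / 2` -/
noncomputable def root (δ : Fin 3 → ℝ) : ℝ := (1 + √(1 - 2 * (δ 0 + δ 1))) / 2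

/-- an open set of feasible points -/
def O : Set (Fin 3 → ℝ) :=
  {δ | 0 < 1 - 2 * (δ 0 + δ 1)} ∩ ({δ | root δ < 3 / 5} ∩ ({δ | |3 * (δ 0 - δ 1) / 2| < 1 / 100} ∩
    ({δ | root δ ^ 2 - root δ ^ 3 + (3 * (δ 0 - δ 1) / 2) ^ 2 / 10 +
        root δ * (3 * (δ 0 - δ 1) / 2) / 2 + ((1 / 5) ^ 2 / 70 - root δ * (1 / 5) / 10) < δ 2} ∩
     {δ | δ 2 < root δ ^ 2 - root δ ^ 3 + (3 * (δ 0 - δ 1) / 2) ^ 2 / 10 +
        root δ * (3 * (δ 0 - δ 1) / 2) / 2 +
        ((-(1 / 5)) ^ 2 / 70 - root δ * (-(1 / 5)) / 10)})))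

theorem root_cont : Continuous root := by
  unfold root
  fun_prop

theorem O_open : IsOpen O := by
  have hr := root_cont
  refine (isOpen_lt (by fun_prop) (by fun_prop)).inter
    ((isOpen_lt (by fun_prop) (by fun_prop)).inter
    ((isOpen_lt (by fun_prop) (by fun_prop)).inter
    ((isOpen_lt (by fun_prop) (by fun_prop)).inter (isOpen_lt (by fun_prop) (by fun_prop)))))

theorem O_sub : O ⊆ Feas W0 := by
  rintro δ ⟨h1, h2, h3, h4, h5⟩
  have h1' : 0 < 1 - 2 * (δ 0 + δ 1) := h1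
  have h2' : root δ < 3 / 5 := h2
  have h3' : |3 * (δ 0 - δ 1) / 2| < 1 / 100 := h3
  have hA : 1 / 2 ≤ root δ := by
    unfold root
    linarith [Real.sqrt_nonneg (1 - 2 * (δ 0 + δ 1))]
  have hroot : root δ - root δ ^ 2 = (δ 0 + δ 1) / 2 := by
    unfold root
    have := Real.sq_sqrt h1'.le
    nlinarith
  let φ : ℝ → ℝ := fun s => root δ ^ 2 - root δ ^ 3 + (3 * (δ 0 - δ 1) / 2) ^ 2 / 10 +
        root δ * (3 * (δ 0 - δ 1) / 2) / 2 + (s ^ 2 / 70 - root δ * s / 10)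
  have hφ : ContinuousOn φ (uIcc (-(1 / 5)) (1 / 5)) := by
    apply Continuous.continuousOn
    fun_prop
  have hmem : δ 2 ∈ uIcc (φ (-(1 / 5))) (φ (1 / 5)) := by
    rw [mem_uIcc]
    right
    exact ⟨h4.le, h5.le⟩
  obtain ⟨s, hs, hsδ⟩ := intermediate_value_uIcc hφ hmem
  rw [uIcc_of_le (by norm_num)] at hs
  have hs' : |s| ≤ 1 / 5 := abs_le.2 ⟨hs.1, hs.2⟩
  have hv := fam_vals hA h2'.le h3'.le hs'
  refine ⟨fam (root δ) (3 * (δ 0 - δ 1) / 2) s, fam_mem hA h2'.le h3'.le hs', ?_⟩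
  rw [feas_iff]
  refine ⟨?_, ?_, ?_⟩
  · rw [hv.1]; linarith
  · rw [hv.2.1]; linarith
  · rw [hv.2.2]; exact hsδ

/-- the segment -/
noncomputable def P (z : ℝ) : Fin 3 → ℝ := ![2499 / 10000, 2499 / 10000, z]

theorem P_mem {z : ℝ} (h1 : 2499 / 10000 * (49 / 100) ≤ z) (h2 : z ≤ 2499 / 10000 * (51 / 100)) :
    P z ∈ interior (Feas W0) := by
  apply interior_maximal O_sub O_open
  have hroot : root (P z) = 51 / 100 := by
    unfold root
    have : (1 - 2 * (P z 0 + P z 1) : ℝ) = (1 / 50) ^ 2 := by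
      show (1 - 2 * (2499 / 10000 + 2499 / 10000) : ℝ) = _
      norm_num
    rw [this, Real.sqrt_sq (by norm_num)]
    norm_num
  have e0 : P z 0 = 2499 / 10000 := rfl
  have e1 : P z 1 = 2499 / 10000 := rfl
  have e2 : P z 2 = z := rfl
  refine ⟨?_, ?_, ?_, ?_, ?_⟩
  · show 0 < 1 - 2 * (P z 0 + P z 1)
    rw [e0, e1]; norm_num
  · show root (P z) < 3 / 5
    rw [hroot]; norm_num
  · show |3 * (P z 0 - P z 1) / 2| < 1 / 100
    rw [e0, e1]; norm_num
  · show root (P z) ^ 2 - root (P z) ^ 3 + (3 * (P z 0 - P z 1) / 2) ^ 2 / 10 +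
        root (P z) * (3 * (P z 0 - P z 1) / 2) / 2 + ((1 / 5) ^ 2 / 70 - root (P z) * (1 / 5) / 10) <
        P z 2
    rw [e0, e1, e2, hroot]
    norm_num at h1 h2 ⊢
    linarith
  · show P z 2 < root (P z) ^ 2 - root (P z) ^ 3 + (3 * (P z 0 - P z 1) / 2) ^ 2 / 10 +
        root (P z) * (3 * (P z 0 - P z 1) / 2) / 2 +
        ((-(1 / 5)) ^ 2 / 70 - root (P z) * (-(1 / 5)) / 10)
    rw [e0, e1, e2, hroot]
    norm_num at h1 h2 ⊢
    linarith

/-- the two branches -/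
theorem branch {f : ℝ → ℝ} (hf : f ∈ Dens) {z : ℝ} (h : ∀ i, rho f (W0 i) = P z i) :
    (U f 0 = 51 / 100 ∨ U f 0 = 49 / 100) ∧ (∫ x in (0 : ℝ)..1, U f x = U f 0 / 2) ∧
      3 * (∫ x in (0 : ℝ)..1, U f x ^ 2) - U f 0 ^ 3 = z := by
  rw [feas_iff] at h
  obtain ⟨h0, h1, h2⟩ := h
  rw [rho_01 hf] at h0
  rw [rho_10 hf] at h1
  rw [rho_011 hf] at h2
  have e0 : P z 0 = 2499 / 10000 := rfl
  have e1 : P z 1 = 2499 / 10000 := rfl
  have e2 : P z 2 = z := rfl
  rw [e0] at h0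
  rw [e1] at h1
  rw [e2] at h2
  have h3 : (U f 0 - 51 / 100) * (U f 0 - 49 / 100) = 0 := by nlinarith
  refine ⟨?_, ?_, h2⟩
  · rcases mul_eq_zero.1 h3 with h4 | h4
    · left; linarith
    · right; linarith
  · have h5 : U f 0 - U f 0 ^ 2 = 2499 / 10000 := by nlinarith
    linarith

/-- the entropy of the two constant densities -/
noncomputable def S0 : ℝ := binEntropy (51 / 100)

theorem S0_eq : binEntropy (49 / 100) = S0 := by
  unfold S0
  rw [← binEntropy_one_sub]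
  norm_num

theorem S0_branch {A : ℝ} (hA : A = 51 / 100 ∨ A = 49 / 100) : binEntropy A = S0 := by
  rcases hA with h | h
  · rw [h]; rfl
  · rw [h]; exact S0_eq

/-- upper bound for the entropy -/
theorem Ent_upper {f : ℝ → ℝ} (hf : f ∈ Dens) {z : ℝ} (h : ∀ i, rho f (W0 i) = P z i) :
    Ent f ≤ S0 - (z - (U f 0 ^ 2 - U f 0 ^ 3)) ^ 2 / 18 := by
  obtain ⟨hA, hB, hD⟩ := branch hf h
  obtain ⟨A, hAdef⟩ : ∃ A, A = U f 0 := ⟨_, rfl⟩
  rw [← hAdef] at hA hB hD ⊢
  have hA0 : 0 < A := by rcases hA with h | h <;> rw [h] <;> norm_num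
  have hA1 : A < 1 := by rcases hA with h | h <;> rw [h] <;> norm_num
  have hI : ∫ x in (0 : ℝ)..1, f x = A := hAdef.symm
  have h1 := Ent_deficit hf hA0 hA1 hI
  have h2 := D_dev hf ⟨hA0.le, hA1.le⟩
  have h3 := abs_sq_le hf A
  rw [S0_branch hA] at h1
  obtain ⟨τ, hτ⟩ : ∃ τ, τ = ∫ x in (0 : ℝ)..1, |f x - A| := ⟨_, rfl⟩
  rw [← hτ] at h2 h3
  have h4 : |z - (A ^ 2 - A ^ 3)| ≤ 6 * τ := by
    have : z - (A ^ 2 - A ^ 3) = 3 * ((∫ x in (0 : ℝ)..1, U f x ^ 2) - A ^ 2 / 3) := by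
      rw [← hD]; ring
    rw [this, abs_mul, abs_of_pos (by norm_num : (0 : ℝ) < 3)]
    linarith
  have h5 : (z - (A ^ 2 - A ^ 3)) ^ 2 ≤ (6 * τ) ^ 2 := by
    rw [← sq_abs]
    exact pow_le_pow_left₀ (abs_nonneg _) h4 2
  nlinarith

/-- moving along a mixture -/
theorem slope_bound {f : ℝ → ℝ} (hf : f ∈ Dens) {z : ℝ} (h : ∀ i, rho f (W0 i) = P z i) {w : ℝ}
    (hw : w ∈ uIcc z (U f 0 ^ 2 - U f 0 ^ 3)) :
    Ent f + |w - z| / 9 * (S0 - Ent f) ≤ entFun W0 (P w) := by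
  obtain ⟨hA, hB, hD⟩ := branch hf h
  have hub := Ent_upper hf h
  obtain ⟨A, hAdef⟩ : ∃ A, A = U f 0 := ⟨_, rfl⟩
  rw [← hAdef] at hA hB hD hw hub
  have hA0 : 0 < A := by rcases hA with h | h <;> rw [h] <;> norm_num
  have hA1 : A < 1 := by rcases hA with h | h <;> rw [h] <;> norm_num
  have hAA : A - A ^ 2 = 2499 / 10000 := by rcases hA with h | h <;> rw [h] <;> norm_num
  obtain ⟨D, hDdef⟩ : ∃ D, D = ∫ x in (0 : ℝ)..1, U f x ^ 2 := ⟨_, rfl⟩
  obtain ⟨M, hMdef⟩ : ∃ M, M = ∫ x in (0 : ℝ)..1, U f x * (1 - x) := ⟨_, rfl⟩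
  have hDb := D_bounds hf
  rw [← hDdef, ← hMdef] at hDb
  rw [← hDdef] at hD
  let φ : ℝ → ℝ := fun t =>
    3 * ((1 - t) ^ 2 * D + 2 * t * (1 - t) * A * M + t ^ 2 * A ^ 2 / 3) - A ^ 3
  have hφ : ContinuousOn φ (uIcc 0 1) := by
    apply Continuous.continuousOn
    fun_prop
  have hφ0 : φ 0 = z := by
    show 3 * ((1 - 0) ^ 2 * D + 2 * 0 * (1 - 0) * A * M + 0 ^ 2 * A ^ 2 / 3) - A ^ 3 = z
    rw [← hD]; ring
  have hφ1 : φ 1 = A ^ 2 - A ^ 3 := by
    show 3 * ((1 - 1) ^ 2 * D + 2 * 1 * (1 - 1) * A * M + 1 ^ 2 * A ^ 2 / 3) - A ^ 3 = _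
    ring
  have hw' : w ∈ uIcc (φ 0) (φ 1) := by rw [hφ0, hφ1]; exact hw
  obtain ⟨t, ht, htw⟩ := intermediate_value_uIcc hφ hw'
  rw [uIcc_of_le zero_le_one] at ht
  have hmix := mix_mem hf ht ⟨hA0.le, hA1.le⟩
  have hvals := mix_vals hf hAdef.symm hB t
  have hfeas : ∀ i, rho (mix f t A) (W0 i) = P w i := by
    rw [feas_iff, rho_01 hmix, rho_10 hmix, rho_011 hmix, hvals.1, hvals.2.1, hvals.2.2,
      ← hDdef, ← hMdef]
    refine ⟨?_, ?_, ?_⟩
    · show 2 * (A / 2) - A ^ 2 = 2499 / 10000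
      linarith
    · show 2 * A - 2 * (A / 2) - A ^ 2 = 2499 / 10000
      linarith
    · show φ t = w
      exact htw
  have h1 := le_entFun hmix hfeas
  have h2 := Ent_mix hf ht ⟨hA0.le, hA1.le⟩
  rw [S0_branch hA] at h2
  have h3 : |w - z| ≤ 9 * t := by
    rw [← htw, ← hφ0]
    have e1 : φ t - φ 0 = t * (3 * (-(2 - t) * D + 2 * (1 - t) * A * M + t * A ^ 2 / 3)) := by
      show (3 * ((1 - t) ^ 2 * D + 2 * t * (1 - t) * A * M + t ^ 2 * A ^ 2 / 3) - A ^ 3) -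
        (3 * ((1 - 0) ^ 2 * D + 2 * 0 * (1 - 0) * A * M + 0 ^ 2 * A ^ 2 / 3) - A ^ 3) = _
      ring
    rw [e1, abs_mul, abs_of_nonneg ht.1, mul_comm]
    apply mul_le_mul_of_nonneg_right _ ht.1
    have b1 : 0 ≤ (2 - t) * D := mul_nonneg (by linarith [ht.2]) hDb.1
    have b2 : (2 - t) * D ≤ 2 * 1 := mul_le_mul (by linarith [ht.1]) hDb.2.1 hDb.1 (by norm_num)
    have b3 : 0 ≤ A * M := mul_nonneg hA0.le hDb.2.2.1
    have b4 : A * M ≤ 1 * 1 := mul_le_mul hA1.le hDb.2.2.2 hDb.2.2.1 (by norm_num)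
    have b5 : 0 ≤ (1 - t) * (A * M) := mul_nonneg (by linarith [ht.2]) b3
    have b6 : (1 - t) * (A * M) ≤ 1 * (1 * 1) :=
      mul_le_mul (by linarith [ht.1]) b4 b3 (by norm_num)
    have b7 : 0 ≤ t * A ^ 2 := mul_nonneg ht.1 (sq_nonneg A)
    have b8 : t * A ^ 2 ≤ 1 * 1 := mul_le_mul ht.2 (by nlinarith) (sq_nonneg A) (by norm_num)
    have e2 : 3 * (-(2 - t) * D + 2 * (1 - t) * A * M + t * A ^ 2 / 3) =
        -3 * ((2 - t) * D) + 6 * ((1 - t) * (A * M)) + t * A ^ 2 := by ring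
    rw [e2, abs_le]
    constructor <;> linarith
  have h4 : 0 ≤ S0 - Ent f := by
    have := sq_nonneg (z - (A ^ 2 - A ^ 3))
    linarith
  have h5 : |w - z| / 9 ≤ t := by linarith
  calc Ent f + |w - z| / 9 * (S0 - Ent f) ≤ Ent f + t * (S0 - Ent f) := by
        linarith [mul_le_mul_of_nonneg_right h5 h4]
    _ = (1 - t) * Ent f + t * S0 := by ring
    _ ≤ _ := h2.trans h1

theorem const_mem {A : ℝ} (hA : A = 51 / 100 ∨ A = 49 / 100) :
    S0 ≤ entFun W0 (P (A ^ 2 - A ^ 3)) := by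
  have hA0 : 0 < A := by rcases hA with h | h <;> rw [h] <;> norm_num
  have hA1 : A < 1 := by rcases hA with h | h <;> rw [h] <;> norm_num
  have hAA : A - A ^ 2 = 2499 / 10000 := by rcases hA with h | h <;> rw [h] <;> norm_num
  have hf : (fun _ : ℝ => A) ∈ Dens := ⟨measurable_const, fun _ => ⟨hA0.le, hA1.le⟩⟩
  have hU : ∀ x, U (fun _ : ℝ => A) x = A * (1 - x) := by
    intro x
    unfold U
    simp
    ring
  have h1 : ∫ x in (0 : ℝ)..1, U (fun _ : ℝ => A) x = A / 2 := by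
    simp_rw [hU]
    rw [intervalIntegral.integral_const_mul, int_one_sub]
    ring
  have h2 : ∫ x in (0 : ℝ)..1, U (fun _ : ℝ => A) x ^ 2 = A ^ 2 / 3 := by
    simp_rw [hU, mul_pow]
    rw [intervalIntegral.integral_const_mul, int_one_sub_sq]
    ring
  have h3 : ∀ i, rho (fun _ : ℝ => A) (W0 i) = P (A ^ 2 - A ^ 3) i := by
    rw [feas_iff, rho_01 hf, rho_10 hf, rho_011 hf, h1, h2, hU]
    refine ⟨?_, ?_, ?_⟩
    · show 2 * (A / 2) - (A * (1 - 0)) ^ 2 = 2499 / 10000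
      linarith
    · show 2 * (A * (1 - 0)) - 2 * (A / 2) - (A * (1 - 0)) ^ 2 = 2499 / 10000
      linarith
    · show 3 * (A ^ 2 / 3) - (A * (1 - 0)) ^ 3 = A ^ 2 - A ^ 3
      ring
  have h4 := le_entFun hf h3
  rw [Ent_eq] at h4
  simp only [intervalIntegral.integral_const, sub_zero, one_smul] at h4
  rwa [S0_branch hA] at h4

/-- The three words `01`, `10`, `011` are distinct, and at some interior point of their feasibility
set the entropy function is not differentiable; in particular it is not real-analytic there. -/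
theorem result : Function.Injective W0 ∧
    ∃ δ ∈ interior (Feas W0), ¬ DifferentiableAt ℝ (entFun W0) δ ∧
      ¬ AnalyticAt ℝ (entFun W0) δ := by
  refine ⟨by decide, ?_⟩
  by_contra hcon
  have hdiff : ∀ δ ∈ interior (Feas W0), DifferentiableAt ℝ (entFun W0) δ := by
    intro δ hδ
    by_contra h
    exact hcon ⟨δ, hδ, h, fun h' => h h'.differentiableAt⟩
  let h : ℝ → ℝ := fun z => entFun W0 (P z)
  have hPd : ∀ z, DifferentiableAt ℝ P z := by
    intro z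
    rw [differentiableAt_pi]
    intro i
    fin_cases i
    · exact differentiableAt_const _
    · exact differentiableAt_const _
    · exact differentiableAt_id
  have hd : ∀ z ∈ Icc (2499 / 10000 * (49 / 100) : ℝ) (2499 / 10000 * (51 / 100)),
      DifferentiableAt ℝ h z := by
    intro z hz
    exact (hdiff (P z) (P_mem hz.1 hz.2)).comp z (hPd z)
  have hcont : ContinuousOn h (Icc (2499 / 10000 * (49 / 100) : ℝ) (2499 / 10000 * (51 / 100))) :=
    fun z hz => (hd z hz).continuousAt.continuousWithinAt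
  obtain ⟨z, hz, hmin⟩ := isCompact_Icc.exists_isMinOn
    (nonempty_Icc.2 (by norm_num : (2499 / 10000 * (49 / 100) : ℝ) ≤ 2499 / 10000 * (51 / 100)))
    hcont
  have hmin' : ∀ w ∈ Icc (2499 / 10000 * (49 / 100) : ℝ) (2499 / 10000 * (51 / 100)), h z ≤ h w :=
    fun w hw => hmin hw
  -- the middle point
  have hne : ∀ w ∈ Icc (2499 / 10000 * (49 / 100) : ℝ) (2499 / 10000 * (51 / 100)),
      {e | ∃ f ∈ Dens, (∀ i, rho f (W0 i) = P w i) ∧ Ent f = e}.Nonempty := by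
    intro w hw
    obtain ⟨f, hf, hfw⟩ := interior_subset (P_mem hw.1 hw.2)
    exact ⟨Ent f, f, hf, hfw, rfl⟩
  have hmid : h (2499 / 20000) < S0 := by
    have h1 : h (2499 / 20000) ≤ S0 - 1 / 10000000 := by
      apply csSup_le (hne _ ⟨by norm_num, by norm_num⟩)
      rintro e ⟨f, hf, hfw, rfl⟩
      have h2 := Ent_upper hf hfw
      obtain ⟨hA, -, -⟩ := branch hf hfw
      rcases hA with hA | hA <;> rw [hA] at h2 <;> norm_num at h2 ⊢ <;> linarith
    linarith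
  have hz0 : h z < S0 := (hmin' _ ⟨by norm_num, by norm_num⟩).trans_lt hmid
  have hlo : h (2499 / 10000 * (49 / 100)) ≥ S0 := by
    have h1 := const_mem (A := 49 / 100) (Or.inr rfl)
    have h2 : ((49 / 100 : ℝ)) ^ 2 - (49 / 100) ^ 3 = 2499 / 10000 * (49 / 100) := by norm_num
    rw [h2] at h1
    exact h1
  have hhi : h (2499 / 10000 * (51 / 100)) ≥ S0 := by
    have h1 := const_mem (A := 51 / 100) (Or.inl rfl)
    have h2 : ((51 / 100 : ℝ)) ^ 2 - (51 / 100) ^ 3 = 2499 / 10000 * (51 / 100) := by norm_num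
    rw [h2] at h1
    exact h1
  have hzlo : 2499 / 10000 * (49 / 100) < z := by
    refine lt_of_le_of_ne hz.1 (fun hh => ?_)
    rw [← hh] at hz0
    linarith
  have hzhi : z < 2499 / 10000 * (51 / 100) := by
    refine lt_of_le_of_ne hz.2 (fun hh => ?_)
    rw [hh] at hz0
    linarith
  have hloc : IsLocalMin h z := by
    filter_upwards [Icc_mem_nhds hzlo hzhi] with w hw
    exact hmin' w hw
  have hder : HasDerivAt h 0 z := by
    have h1 := (hd z hz).hasDerivAt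
    rwa [hloc.deriv_eq_zero] at h1
  obtain ⟨κ, hκ⟩ : ∃ κ, κ = (S0 - h z) / 9 := ⟨_, rfl⟩
  have hκpos : 0 < κ := by rw [hκ]; linarith
  -- lower bound for moving towards a branch end
  have key : ∀ A : ℝ, (A = 51 / 100 ∨ A = 49 / 100) →
      (∀ ε > 0, ∃ f ∈ Dens, (∀ i, rho f (W0 i) = P z i) ∧ U f 0 = A ∧ h z - ε < Ent f) →
      ∀ w ∈ uIcc z (A ^ 2 - A ^ 3), |w - z| ≤ 9 → h z + κ * |w - z| ≤ h w := by
    intro A hA hε w hw hw9
    apply le_of_forall_pos_le_add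
    intro ε hεpos
    obtain ⟨f, hf, hfz, hfA, hfE⟩ := hε ε hεpos
    have h1 := slope_bound hf hfz (w := w) (by rw [hfA]; exact hw)
    have h2 : Ent f ≤ h z := le_entFun hf hfz
    have h3 : 0 ≤ |w - z| := abs_nonneg _
    have h4 : |w - z| / 9 * (S0 - h z) ≤ |w - z| / 9 * (S0 - Ent f) :=
      mul_le_mul_of_nonneg_left (by linarith) (by positivity)
    have h5 : κ * |w - z| = |w - z| / 9 * (S0 - h z) := by rw [hκ]; ring
    show h z + κ * |w - z| ≤ entFun W0 (P w) + ε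
    rw [h5]
    linarith
  -- the derivative is zero
  have hsmall : ∀ᶠ w in nhds z, |h w - h z| ≤ κ / 2 * |w - z| := by
    have h1 := hder.isLittleO
    have h2 := h1.def (show (0 : ℝ) < κ / 2 by linarith)
    filter_upwards [h2] with w hw
    simpa using hw
  obtain ⟨η, hη, hball⟩ := Metric.eventually_nhds_iff.1 hsmall
  -- a nearby point on the given side gives a contradiction
  have contra : ∀ w, w ≠ z → |w - z| < η → h z + κ * |w - z| ≤ h w → False := by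
    intro w hwz hwη hw
    have h1 := hball (y := w) (by rw [Real.dist_eq]; exact hwη)
    have h2 : 0 < |w - z| := abs_pos.2 (sub_ne_zero.2 hwz)
    have h3 := (le_abs_self _).trans h1
    nlinarith
  by_cases hbr : ∀ ε > 0, ∃ f ∈ Dens, (∀ i, rho f (W0 i) = P z i) ∧ U f 0 = 51 / 100 ∧
      h z - ε < Ent f
  · have hend : ((51 / 100 : ℝ)) ^ 2 - (51 / 100) ^ 3 = 2499 / 10000 * (51 / 100) := by norm_num
    obtain ⟨r, hr⟩ : ∃ r, r = min (η / 2) (2499 / 10000 * (51 / 100) - z) := ⟨_, rfl⟩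
    have hrpos : 0 < r := by rw [hr]; exact lt_min (by linarith) (by linarith)
    have hr1 : r ≤ η / 2 := by rw [hr]; exact min_le_left _ _
    have hr2 : r ≤ 2499 / 10000 * (51 / 100) - z := by rw [hr]; exact min_le_right _ _
    have habs : |z + r - z| = r := by rw [add_sub_cancel_left, abs_of_pos hrpos]
    refine contra (z + r) (by linarith) (by rw [habs]; linarith) ?_
    refine key _ (Or.inl rfl) hbr (z + r) ?_ ?_
    · rw [hend, uIcc_of_le hzhi.le]
      exact ⟨by linarith, by linarith⟩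
    · rw [habs]
      have := hz.1
      norm_num at this hr2
      linarith
  · push Not at hbr
    obtain ⟨ε0, hε0, hno⟩ := hbr
    have hbr2 : ∀ ε > 0, ∃ f ∈ Dens, (∀ i, rho f (W0 i) = P z i) ∧ U f 0 = 49 / 100 ∧
        h z - ε < Ent f := by
      intro ε hε
      obtain ⟨e, ⟨f, hf, hfz, rfl⟩, hfe⟩ := exists_lt_of_lt_csSup (hne z hz)
        (show h z - min ε ε0 < sSup _ by
          show h z - min ε ε0 < h z
          linarith [lt_min hε hε0])
      refine ⟨f, hf, hfz, ?_, ?_⟩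
      · rcases (branch hf hfz).1 with hA | hA
        · have h1 := hno f hf hfz hA
          have h2 := min_le_right ε ε0
          linarith
        · exact hA
      · have h2 := min_le_left ε ε0
        linarith
    have hend : ((49 / 100 : ℝ)) ^ 2 - (49 / 100) ^ 3 = 2499 / 10000 * (49 / 100) := by norm_num
    obtain ⟨r, hr⟩ : ∃ r, r = min (η / 2) (z - 2499 / 10000 * (49 / 100)) := ⟨_, rfl⟩
    have hrpos : 0 < r := by rw [hr]; exact lt_min (by linarith) (by linarith)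
    have hr1 : r ≤ η / 2 := by rw [hr]; exact min_le_left _ _
    have hr2 : r ≤ z - 2499 / 10000 * (49 / 100) := by rw [hr]; exact min_le_right _ _
    have habs : |z - r - z| = r := by
      rw [show z - r - z = -r by ring, abs_neg, abs_of_pos hrpos]
    refine contra (z - r) (by linarith) (by rw [habs]; linarith) ?_
    refine key _ (Or.inr rfl) hbr2 (z - r) ?_ ?_
    · rw [hend, uIcc_of_ge hzlo.le]
      exact ⟨by linarith, by linarith⟩
    · rw [habs]
      have := hz.2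
      norm_num at this hr2
      linarith

end Pool.Agent.Results.MP_8f0a23_co.EntropyKink
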